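import Pool.Agent.helper62.MS.SpecA
import Pool.Agent.helper62.RS.All

set_option autoImplicit false

open scoped MatrixGroups ContDiff Topology UpperHalfPlane ComplexConjugate
open UpperHalfPlane MeasureTheory Filter Set

namespace Pool.Agent.MS

open Pool.Agent.RS

theorem GKF_i10 (k : SL(2, ℝ)) : k⁻¹ 1 0 = -k.1 1 0 := by
  rw [show k⁻¹ 1 0 = (k⁻¹).1 1 0 from rfl, Matrix.SpecialLinearGroup.coe_inv, Matrix.adjugate_fin_two]
  rfl

theorem GKF_i11 (k : SL(2, ℝ)) : k⁻¹ 1 1 = k.1 0 0 := by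
  rw [show k⁻¹ 1 1 = (k⁻¹).1 1 1 from rfl, Matrix.SpecialLinearGroup.coe_inv, Matrix.adjugate_fin_two]
  rfl

theorem GKF_D (k : SL(2, ℝ)) (x τ : ℝ) : OV2_D (k⁻¹ 1 0) (k⁻¹ 1 1) x τ = Dk k x τ := by
  unfold OV2_D Dk
  rw [GKF_i10, GKF_i11]
  ring

theorem GKF_Dpos (k : SL(2, ℝ)) (x τ : ℝ) : 0 < Dk k x τ := by
  rw [← GKF_D]
  exact OV2_Dpos _ _ _ _ (OV2_row _)

theorem GKF_im (k : SL(2, ℝ)) (x τ : ℝ) : (k⁻¹ • pt x τ).im = Real.exp τ / Dk k x τ := by
  rw [OV2_im, GKF_D]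

theorem GKF_exp : Real.exp (1 / 4) ≤ 1.29 := by
  by_contra h
  push Not at h
  have h1 : Real.exp (1 / 4) ^ 4 = Real.exp 1 := by
    rw [← Real.exp_nat_mul]
    norm_num
  have h2 : (1.29 : ℝ) ^ 4 ≤ Real.exp (1 / 4) ^ 4 := pow_le_pow_left₀ (by norm_num) h.le 4
  rw [h1] at h2
  have h3 := Real.exp_one_lt_d9
  norm_num at h2
  linarith

theorem GKF_log {y : ℝ} (hy : 0 < y) (h : |Real.log y| ≤ 1 / 4) : 0.77 ≤ y ∧ y ≤ 1.29 := by
  have h1 := abs_le.mp h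
  have e : Real.exp (Real.log y) = y := Real.exp_log hy
  constructor
  · have h2 : Real.exp (-(1 / 4)) ≤ Real.exp (Real.log y) := Real.exp_le_exp.mpr h1.1
    rw [e, Real.exp_neg] at h2
    have h3 : (1.29 : ℝ)⁻¹ ≤ (Real.exp (1 / 4))⁻¹ := inv_anti₀ (Real.exp_pos _) GKF_exp
    have h4 : (0.77 : ℝ) ≤ (1.29 : ℝ)⁻¹ := by norm_num
    linarith
  · have h2 : Real.exp (Real.log y) ≤ Real.exp (1 / 4) := Real.exp_le_exp.mpr h1.2
    rw [e] at h2
    exact h2.trans GKF_exp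

theorem GKF_alg {a b c d x y x' y' : ℝ} (hdet : a * d - b * c = 1)
    (hre : x * (c * x' + d) - y * (c * y') = a * x' + b)
    (him : x * (c * y') + y * (c * x' + d) = a * y')
    (hx : |x| ≤ 1 / 4) (hx' : |x'| ≤ 1 / 4) (hy : 0.77 ≤ y ∧ y ≤ 1.29) (hy' : 0.77 ≤ y' ∧ y' ≤ 1.29) :
    |a| ≤ 3 ∧ |b| ≤ 3 ∧ |c| ≤ 3 ∧ |d| ≤ 3 := by
  obtain ⟨x1, x2⟩ := abs_le.mp hx
  obtain ⟨x1', x2'⟩ := abs_le.mp hx'
  obtain ⟨y1, y2⟩ := hy
  obtain ⟨y1', y2'⟩ := hy'
  set u := c * x' + d with hu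
  set v := c * y' with hv
  have key : y * (u ^ 2 + v ^ 2) = y' := by
    have : y * (u ^ 2 + v ^ 2) = u * (a * y' - x * v) + v * (x * u - (a * x' + b)) := by
      rw [← hre, ← him]; ring
    rw [this]
    have : u * (a * y' - x * v) + v * (x * u - (a * x' + b)) = y' * (a * d - b * c) := by
      rw [hu, hv]; ring
    rw [this, hdet, mul_one]
  have huv : u ^ 2 + v ^ 2 ≤ 1.69 := by
    have h0 : 0 ≤ u ^ 2 + v ^ 2 := by positivity
    nlinarith
  have hu1 : |u| ≤ 1.3 := abs_le_of_sq_le_sq (by nlinarith [sq_nonneg v]) (by norm_num)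
  have hv1 : |v| ≤ 1.3 := abs_le_of_sq_le_sq (by nlinarith [sq_nonneg u]) (by norm_num)
  have hy0 : (0 : ℝ) < y' := by linarith
  have hyy : |y'| = y' := abs_of_pos hy0
  have hyy0 : |y| = y := abs_of_pos (by linarith)
  have hc : |c| ≤ 1.7 := by
    have : |c| * y' ≤ 1.3 := by rw [← hyy, ← abs_mul]; exact hv1
    nlinarith [abs_nonneg c]
  have hcx : |c * x'| ≤ 0.425 := by
    rw [abs_mul]
    nlinarith [abs_nonneg c, abs_nonneg x']
  have hd : |d| ≤ 3 := by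
    have : d = u - c * x' := by rw [hu]; ring
    rw [this]
    exact (abs_sub _ _).trans (by linarith)
  have hxv : |x * v| ≤ 0.325 := by
    rw [abs_mul]
    nlinarith [abs_nonneg x, abs_nonneg v]
  have hyu : |y * u| ≤ 1.677 := by
    rw [abs_mul, hyy0]
    nlinarith [abs_nonneg u]
  have ha : |a| ≤ 2.6 := by
    have h1 : |a| * y' ≤ 2.002 := by
      rw [← hyy, ← abs_mul, ← him]
      exact (abs_add_le _ _).trans (by linarith)
    nlinarith [abs_nonneg a]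
  have hb : |b| ≤ 3 := by
    have h1 : b = x * u - y * v - a * x' := by linarith
    have h2 : |x * u| ≤ 0.325 := by
      rw [abs_mul]
      nlinarith [abs_nonneg x, abs_nonneg u]
    have h3 : |y * v| ≤ 1.677 := by
      rw [abs_mul, hyy0]
      nlinarith [abs_nonneg v]
    have h4 : |a * x'| ≤ 0.65 := by
      rw [abs_mul]
      nlinarith [abs_nonneg a, abs_nonneg x']
    rw [h1]
    have h5 := abs_sub (x * u - y * v) (a * x')
    have h6 := abs_sub (x * u) (y * v)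
    linarith
  exact ⟨by linarith, hb, by linarith, hd⟩

theorem GKF_ent (k : SL(2, ℝ)) (z : ℍ) (hx : |z.re| ≤ 1 / 4) (hy : |Real.log z.im| ≤ 1 / 4)
    (hx' : |(k⁻¹ • z).re| ≤ 1 / 4) (hy' : |Real.log (k⁻¹ • z).im| ≤ 1 / 4) : ∀ i j, |k.1 i j| ≤ 3 := by
  set w := k⁻¹ • z with hw
  have hz : z = k • w := by rw [hw, smul_inv_smul]
  have h1 := IN0_coe k w
  have h2 := IN0_den k w
  rw [← hz, eq_div_iff h2] at h1
  have hre := congrArg Complex.re h1
  have him := congrArg Complex.im h1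
  simp only [Complex.mul_re, Complex.mul_im, Complex.add_re, Complex.add_im, Complex.ofReal_re, Complex.ofReal_im,
    zero_mul, sub_zero, add_zero, UpperHalfPlane.coe_re, UpperHalfPlane.coe_im] at hre him
  have hdet := IN0_det k
  obtain ⟨h3, h4, h5, h6⟩ := GKF_alg (a := k 0 0) (b := k 0 1) (c := k 1 0) (d := k 1 1) hdet hre him hx hx'
    (GKF_log z.im_pos hy) (GKF_log w.im_pos hy')
  intro i j
  fin_cases i <;> fin_cases j
  · exact h3
  · exact h4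
  · exact h5
  · exact h6

theorem GKF_int (β α : ℝ → ℝ) (c' : ℍ → ℂ) (r : ℝ) (k : SL(2, ℝ)) (x τ : ℝ) :
    ((Real.exp (-τ) : ℝ) : ℂ) * (pk r c' (pt x τ) * conj (pk r (pc β α) (k⁻¹ • pt x τ))) =
      c' (pt x τ) * amk (pc β α) k x τ * Complex.exp (((r * Real.log (Dk k x τ) : ℝ) : ℂ) * Complex.I) := by
  have hD := GKF_Dpos k x τ
  have hpos : 0 < Real.exp τ / Dk k x τ := by positivity
  unfold pk amk
  rw [map_mul, GKF_im]
  have h1 : (pt x τ).im = Real.exp τ := rfl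
  rw [h1]
  have e0 : conj (pc β α (k⁻¹ • pt x τ)) = pc β α (k⁻¹ • pt x τ) := Complex.conj_ofReal _
  have e1 : ((Real.exp τ : ℝ) : ℂ) ^ ((1 / 2 : ℂ) + (r : ℂ) * Complex.I) = Complex.exp (((1 / 2 : ℂ) + (r : ℂ) * Complex.I) * (τ : ℂ)) := by
    rw [Complex.cpow_def_of_ne_zero (by exact_mod_cast (Real.exp_pos τ).ne'), ← Complex.ofReal_log (Real.exp_pos τ).le, Real.log_exp, mul_comm]
  have e2 : ((Real.exp τ / Dk k x τ : ℝ) : ℂ) ^ ((1 / 2 : ℂ) + (r : ℂ) * Complex.I) =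
      Complex.exp (((1 / 2 : ℂ) + (r : ℂ) * Complex.I) * ((τ - Real.log (Dk k x τ) : ℝ) : ℂ)) := by
    rw [Complex.cpow_def_of_ne_zero (by exact_mod_cast hpos.ne'), ← Complex.ofReal_log hpos.le, Real.log_div (Real.exp_pos τ).ne' hD.ne', Real.log_exp, mul_comm]
  have e2' : conj (Complex.exp (((1 / 2 : ℂ) + (r : ℂ) * Complex.I) * ((τ - Real.log (Dk k x τ) : ℝ) : ℂ))) =
      Complex.exp (((1 / 2 : ℂ) - (r : ℂ) * Complex.I) * ((τ - Real.log (Dk k x τ) : ℝ) : ℂ)) := by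
    rw [← Complex.exp_conj, map_mul, map_add, map_mul, Complex.conj_I, Complex.conj_ofReal, Complex.conj_ofReal,
      map_div₀, map_one, Complex.conj_ofNat]
    congr 1
    ring
  have e3 : ((Dk k x τ ^ (-(1 / 2 : ℝ)) : ℝ) : ℂ) = Complex.exp (((-(1 / 2) * Real.log (Dk k x τ) : ℝ)) : ℂ) := by
    rw [Real.rpow_def_of_pos hD, ← Complex.ofReal_exp]
    congr 2
    ring
  have e4 : ((Real.exp (-τ) : ℝ) : ℂ) = Complex.exp ((-τ : ℝ) : ℂ) := Complex.ofReal_exp _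
  rw [e0, e1, e2, e2', e3, e4]
  have key : Complex.exp ((-τ : ℝ) : ℂ) * (Complex.exp (((1 / 2 : ℂ) + (r : ℂ) * Complex.I) * (τ : ℂ)) *
      Complex.exp (((1 / 2 : ℂ) - (r : ℂ) * Complex.I) * ((τ - Real.log (Dk k x τ) : ℝ) : ℂ))) =
      Complex.exp (((-(1 / 2) * Real.log (Dk k x τ) : ℝ)) : ℂ) *
        Complex.exp (((r * Real.log (Dk k x τ) : ℝ) : ℂ) * Complex.I) := by
    rw [← Complex.exp_add, ← Complex.exp_add, ← Complex.exp_add]
    congr 1
    push_cast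
    ring
  linear_combination (c' (pt x τ) * pc β α (k⁻¹ • pt x τ)) * key

theorem GKF_st {T : ℝ} (hT : 0 ≤ T) {β0 : ℝ → ℝ} (h : SB (1 / 4) β0) : SB (1 / 4) (st (-T) β0) := by
  refine ⟨?_, ?_⟩
  · unfold st
    exact contDiff_const.mul (h.1.comp (contDiff_const.mul contDiff_id))
  · intro x hx
    unfold st at hx
    have h1 := h.2 _ (right_ne_zero_of_mul hx)
    rw [neg_neg, abs_mul, abs_of_pos (Real.exp_pos T)] at h1
    have h2 : 1 ≤ Real.exp T := Real.one_le_exp hT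
    nlinarith [abs_nonneg x]

theorem GKF_stx (T : ℝ) (β0 : ℝ → ℝ) (x : ℝ) :
    st (-T) β0 (Real.exp (-T) * x) = Real.exp (T / 2) * β0 x := by
  unfold st
  rw [neg_neg, ← mul_assoc, ← Real.exp_add, add_neg_cancel, Real.exp_zero, one_mul]
  congr 2
  ring

theorem GKF_proof : GKF_stmt := by
  intro β0 α0 β α T r k hβ0 hα0 hβ hα hT hr
  have hst := GKF_st hT hβ0
  have hTB' : TB (1 / 4) (pc (st (-T) β0) α0) := (A_CV1.2.2 (1 / 4) α0 (st (-T) β0) hα0 hst).1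
  have hTB : TB (1 / 4) (pc β α) := (A_CV1.2.2 (1 / 4) α β hα hβ).1
  have hpk' := A_FL0.2.1 (1 / 4) r _ hTB'
  have hpk := A_FL0.2.1 (1 / 4) r _ hTB
  have hcont : ∀ c : ℍ → ℂ, Tst (pk r c) → Continuous (pk r c) := fun c h =>
    (QU.CA1_cont (pk r c)).1 (ContDiffOn.of_le h.1 (by simp))
  refine ⟨?_, ?_⟩
  · intro hne
    have hex : ∃ z : ℍ, pk r (pc (st (-T) β0) α0) z * conj (pk r (pc β α) (k⁻¹ • z)) ≠ 0 := by
      by_contra hc
      push Not at hc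
      apply hne
      unfold gk
      simp [hc]
    obtain ⟨z, hz⟩ := hex
    have h1 : pk r (pc (st (-T) β0) α0) z ≠ 0 := left_ne_zero_of_mul hz
    have h2 : pk r (pc β α) (k⁻¹ • z) ≠ 0 := by
      intro h0
      apply right_ne_zero_of_mul hz
      rw [h0, map_zero]
    have h3 := hTB'.2 z (left_ne_zero_of_mul h1)
    have h4 := hTB.2 (k⁻¹ • z) (left_ne_zero_of_mul h2)
    exact GKF_ent k z h3.1 h3.2 h4.1 h4.2
  · have hfc : Continuous (fun z : ℍ => pk r (pc (st (-T) β0) α0) z * conj (pk r (pc β α) (k⁻¹ • z))) :=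
      (hcont _ hpk').mul (Complex.continuous_conj.comp ((hcont _ hpk).comp (continuous_const_smul k⁻¹)))
    have hfs : HasCompactSupport (fun z : ℍ => pk r (pc (st (-T) β0) α0) z * conj (pk r (pc β α) (k⁻¹ • z))) :=
      hpk'.2.mul_right
    unfold gk
    rw [A_CV1.1 _ hfc hfs, ← integral_const_mul]
    refine integral_congr_ae (Eventually.of_forall fun τ => ?_)
    simp only [GKF_int]
    have hsub := MeasureTheory.Measure.integral_comp_mul_left (fun x : ℝ => pc (st (-T) β0) α0 (pt x τ) * amk (pc β α) k x τ *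
      Complex.exp (((r * Real.log (Dk k x τ) : ℝ) : ℂ) * Complex.I)) (Real.exp (-T))
    have hpt : ∀ x : ℝ, pc (st (-T) β0) α0 (pt (Real.exp (-T) * x) τ) =
        ((Real.exp (T / 2) : ℝ) : ℂ) * ((β0 x * α0 τ : ℝ) : ℂ) := by
      intro x
      have e1 : (pt (Real.exp (-T) * x) τ).re = Real.exp (-T) * x := rfl
      have e2 : (pt (Real.exp (-T) * x) τ).im = Real.exp τ := rfl
      unfold pc
      rw [e1, e2, Real.log_exp, GKF_stx]
      push_cast
      ring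
    simp only [hpt] at hsub
    have hpos : 0 < Real.exp (-T) := Real.exp_pos _
    rw [abs_of_pos (inv_pos.mpr hpos), Complex.real_smul] at hsub
    have hI : ∫ x : ℝ, ((Real.exp (T / 2) : ℝ) : ℂ) * ((β0 x * α0 τ : ℝ) : ℂ) * amk (pc β α) k (Real.exp (-T) * x) τ *
        Complex.exp (((r * Real.log (Dk k (Real.exp (-T) * x) τ) : ℝ) : ℂ) * Complex.I) =
        ((Real.exp (T / 2) : ℝ) : ℂ) * ∫ x : ℝ, ((β0 x * α0 τ : ℝ) : ℂ) * amk (pc β α) k (Real.exp (-T) * x) τ *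
        Complex.exp (((r * Real.log (Dk k (Real.exp (-T) * x) τ) : ℝ) : ℂ) * Complex.I) := by
      rw [← integral_const_mul]
      refine integral_congr_ae (Eventually.of_forall fun x => ?_)
      ring
    rw [hI] at hsub
    have hne : ((Real.exp (-T) : ℝ) : ℂ) ≠ 0 := by exact_mod_cast hpos.ne'
    have h1 : ∫ y : ℝ, pc (st (-T) β0) α0 (pt y τ) * amk (pc β α) k y τ *
        Complex.exp (((r * Real.log (Dk k y τ) : ℝ) : ℂ) * Complex.I) =
        ((Real.exp (-T) : ℝ) : ℂ) * (((Real.exp (T / 2) : ℝ) : ℂ) * ∫ x : ℝ, ((β0 x * α0 τ : ℝ) : ℂ) * amk (pc β α) k (Real.exp (-T) * x) τ *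
        Complex.exp (((r * Real.log (Dk k (Real.exp (-T) * x) τ) : ℝ) : ℂ) * Complex.I)) := by
      rw [hsub, Complex.ofReal_inv, ← mul_assoc, mul_inv_cancel₀ hne, one_mul]
    rw [h1, ← mul_assoc, ← Complex.ofReal_mul, ← Real.exp_add]
    congr 3
    ring_nf

end Pool.Agent.MS
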